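import Mathlib
import Pool.Agent.Q73.Za.Up

/-!
# MP_9c48c1: no extremal function for the reverse affine Zhang-Sobolev inequality in thin ellipses

For `n = p = 2` and an ellipse with semi-axes `a` and `b ≤ a/5` the best constant is
`A_{2,2}(Ω) = √(π/a)`, and no nonzero function of `W_0^{1,2}(Ω)` attains it: the answer to Q2 is
negative in general.

The fourth power of the ratio is `4 det M / (‖f‖² tr M)`, `M` being the matrix `∫ ∇f ⊗ ∇f`. The
infimum is approached by functions concentrated near the long axis, with `tr M → ∞`. In the other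
direction, in an eigenframe `v, w` of `M` a Picone identity along the chords of direction `v` gives
`∫ |∂_v f|² ≥ (π²/4) ∫ (1/a² + s²/(a²b²)) f²`, where `s` is the coordinate along `w`, and
Heisenberg's inequality for `∂_w` and `s` excludes equality when `b ≤ a/5`.
-/

set_option autoImplicit false
open MeasureTheory Set Filter Topology Metric

namespace Pool.Agent.Results.MP_9c48c1_an.NoExtremalThinEllipse

open Q73.Za

theorem result (a b : ℝ) (ha : 0 < a) (hb : 0 < b) (hab : b ≤ a / 5) (Ω : Set (EN 2))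
    (hΩ : Ω = {x | (x 0 / b) ^ 2 + (x 1 / a) ^ 2 < 1}) :
    (IsOpen Ω ∧ Bornology.IsBounded Ω ∧ Ω.Nonempty) ∧
    aconst 2 Ω = √(Real.pi / a) ∧
    (∀ f : EN 2 → ℝ, Adm Ω f → f ≠ 0 → aconst 2 Ω < ratio 2 f (gradient f)) ∧
    (∀ (f : EN 2 → ℝ) (G : EN 2 → EN 2), W0 2 Ω f G → ¬ (f =ᵐ[volume] 0) →
      aconst 2 Ω < ratio 2 f G) ∧
    ¬ ∃ (f : EN 2 → ℝ) (G : EN 2 → EN 2), Extremal 2 Ω f G := by
  have hpi := Real.pi_pos
  have hΩe : Ω = ell a b := hΩ
  subst hΩe
  have hne0 : ∀ f : E2 → ℝ, Adm (ell a b) f → f ≠ 0 → ¬ (f =ᵐ[volume] 0) := by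
    intro f hf h0 hae
    exact h0 (hf.1.continuous.ae_eq_iff_eq volume continuous_zero |>.1 hae)
  have hgt : ∀ f : E2 → ℝ, Adm (ell a b) f → f ≠ 0 → √(Real.pi / a) < ratio 2 f (gradient f) :=
    fun f hf h0 => ratio_gt ha hb hab (adm_W0 ha hb hf) (hne0 f hf h0)
  have hA : aconst 2 (ell a b) = √(Real.pi / a) := by
    unfold aconst
    refine csInf_eq_of_forall_ge_of_forall_gt_exists_lt ?_ ?_ ?_
    · obtain ⟨f, hf, h0, -, -⟩ := exists_test (ε := 1) ha hb one_pos
      exact ⟨_, f, hf, h0, rfl⟩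
    · rintro t ⟨f, hf, h0, rfl⟩
      exact (hgt f hf h0).le
    · intro w hw
      have hw0 : 0 < w := lt_of_le_of_lt (Real.sqrt_nonneg _) hw
      have e3 : √(Real.pi / a) ^ 4 = Real.pi ^ 2 / a ^ 2 := by
        have : √(Real.pi / a) ^ 4 = (√(Real.pi / a) ^ 2) ^ 2 := by ring
        rw [this, Real.sq_sqrt (by positivity), div_pow]
      have hw4 : Real.pi ^ 2 / a ^ 2 < w ^ 4 := by
        rw [← e3]
        exact pow_lt_pow_left₀ hw (Real.sqrt_nonneg _) (by norm_num)
      obtain ⟨f, hf, h0, hN, hY⟩ := exists_test (ε := (w ^ 4 - Real.pi ^ 2 / a ^ 2) / 8) ha hb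
        (by linarith)
      refine ⟨_, ⟨f, hf, h0, rfl⟩, ?_⟩
      have hW := adm_W0 ha hb hf
      have e2 : ENNReal.ofReal 2 = 2 := by norm_num
      have hG : MemLp (gradient f) 2 := by
        have := hW.2.1
        rwa [e2] at this
      obtain ⟨-, hX, hs⟩ := strict ha hb hab hW (hne0 f hf h0)
      have hY0 : 0 ≤ gY (gradient f) := integral_nonneg fun x => sq_nonneg _
      have hS : 0 < gX (gradient f) + gY (gradient f) := by linarith
      have hD : 0 < gX (gradient f) * gY (gradient f) - gZ (gradient f) ^ 2 :=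
        lt_trans (by positivity) hs
      obtain ⟨-, h2⟩ := ratio_four (f := f) hG hX hD hN
      refine lt_of_pow_lt_pow_left₀ 4 hw0.le ?_
      rw [h2, div_lt_iff₀ (by positivity)]
      set X := gX (gradient f)
      set Y := gY (gradient f)
      set Z := gZ (gradient f)
      set N := ∫ x, f x ^ 2
      have h3 : 4 * (X * Y - Z ^ 2) ≤ 4 * Y * (X + Y) := by nlinarith [sq_nonneg Z, sq_nonneg Y]
      have h4 : 4 * Y ≤ (Real.pi ^ 2 / a ^ 2 + (w ^ 4 - Real.pi ^ 2 / a ^ 2) / 2) * N := by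
        have : 4 * ((Real.pi ^ 2 / (4 * a ^ 2) + (w ^ 4 - Real.pi ^ 2 / a ^ 2) / 8) * N) =
            (Real.pi ^ 2 / a ^ 2 + (w ^ 4 - Real.pi ^ 2 / a ^ 2) / 2) * N := by
          field_simp
          ring
        linarith
      have h5 : 4 * Y * (X + Y) ≤
          (Real.pi ^ 2 / a ^ 2 + (w ^ 4 - Real.pi ^ 2 / a ^ 2) / 2) * N * (X + Y) :=
        mul_le_mul_of_nonneg_right h4 hS.le
      have h6 : (Real.pi ^ 2 / a ^ 2 + (w ^ 4 - Real.pi ^ 2 / a ^ 2) / 2) * N * (X + Y) <
          w ^ 4 * (N * (X + Y)) := by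
        rw [mul_assoc]
        exact mul_lt_mul_of_pos_right (by linarith) (by positivity)
      linarith
  have hgt' : ∀ (f : E2 → ℝ) (G : E2 → E2), W0 2 (ell a b) f G → ¬ (f =ᵐ[volume] 0) →
      aconst 2 (ell a b) < ratio 2 f G := by
    intro f G hW h0
    rw [hA]
    exact ratio_gt ha hb hab hW h0
  refine ⟨⟨isOpen_ell a b, ell_bdd ha hb, 0, ?_⟩, hA, ?_, hgt', ?_⟩
  · show ((0 : E2) 0 / b) ^ 2 + ((0 : E2) 1 / a) ^ 2 < 1
    simp
  · intro f hf h0
    rw [hA]
    exact hgt f hf h0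
  · rintro ⟨f, G, hW, h0, heq⟩
    have h1 := hgt' f G hW h0
    unfold ratio at h1
    set d := lpn 2 f ^ ((((2 : ℕ) : ℝ) - 1) / ((2 : ℕ) : ℝ)) * lpn 2 G ^ (1 / ((2 : ℕ) : ℝ)) with hd
    have hd0 : 0 ≤ d := by
      rw [hd]
      have l1 : 0 ≤ lpn 2 f := by
        rw [lpn_scalar]
        exact Real.sqrt_nonneg _
      have l2 : 0 ≤ lpn 2 G := by
        unfold lpn
        exact Real.rpow_nonneg (integral_nonneg fun x => by positivity) _
      positivity
    rw [heq] at h1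
    rcases hd0.eq_or_lt with h2 | h2
    · rw [← h2] at h1
      rw [hA] at h1
      simp at h1
      linarith [Real.sqrt_nonneg (Real.pi / a)]
    · rw [mul_div_assoc, div_self h2.ne', mul_one] at h1
      exact lt_irrefl _ h1

end Pool.Agent.Results.MP_9c48c1_an.NoExtremalThinEllipse
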